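import Pool.Agent.Helper50_DP.LogL

/-! Module PIN of squad DP: the differential polynomial determines the forms. -/

set_option autoImplicit false

open MvPolynomial PGH PGL

namespace Pool.Agent.DP.H19

variable {K : Type} [Field K] {N : ℕ}

/-- the ring of the 1-jets -/
abbrev R1 (K : Type) [Field K] := MvPolynomial (Fin 2 × Fin 3) K

/-- the specialized jets -/
noncomputable def jt (K : Type) [Field K] : Fin 3 → Fin 3 → Polynomial (R1 K) :=
  ![fun c => Polynomial.C (X (0, c)), fun c => Polynomial.C (X (1, c)),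
    ![Polynomial.X, 0, 0]]

theorem lin_ne (M : Fin 3 → K) (hM : M ≠ 0) :
    lin M (fun c => (X (0, c) : MvPolynomial (Fin 2 × Fin 3) K)) ≠ 0 := by
  intro h
  apply hM
  funext c
  have h1 := congrArg (aeval (R := K) (fun p : Fin 2 × Fin 3 => if p.2 = c then (1 : K) else 0)) h
  simp only [lin, map_sum, map_mul, AlgHom.commutes, aeval_X, map_zero] at h1
  simpa using h1

/-- the cofactor -/
noncomputable def cof (K : Type) [Field K] : R1 K :=
  X (0, 1) * X (1, 2) - X (0, 2) * X (1, 1)

theorem cof_ne : cof K ≠ 0 := by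
  intro h
  have h1 := congrArg (aeval (R := K) (fun p : Fin 2 × Fin 3 =>
    if p = (0, 1) ∨ p = (1, 2) then (1 : K) else 0)) h
  simp [cof] at h1

theorem pin : PinStmt := by
  intro K _ N L B hL hN h
  have hL0 : ∀ i, L i ≠ 0 := by
    intro i hi
    obtain ⟨j, l, h1, h2, h3⟩ : ∃ j l : Fin N, i ≠ j ∧ l ≠ i ∧ l ≠ j := by
      have hc : 2 < Finset.card (Finset.univ : Finset (Fin N)) := by
        rw [Finset.card_univ, Fintype.card_fin]; omega
      obtain ⟨j, hj⟩ : ∃ j, j ∉ ({i} : Finset (Fin N)) := by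
        by_contra hcon
        push Not at hcon
        have := Finset.card_le_card (fun x (_ : x ∈ (Finset.univ : Finset (Fin N))) => hcon x)
        simp at this
        omega
      obtain ⟨l, hl⟩ : ∃ l, l ∉ ({i, j} : Finset (Fin N)) := by
        by_contra hcon
        push Not at hcon
        have h4 := Finset.card_le_card (fun x (_ : x ∈ (Finset.univ : Finset (Fin N))) => hcon x)
        have h5 := Finset.card_le_two (a := i) (b := j)
        omega
      simp only [Finset.mem_insert, Finset.mem_singleton, not_or] at hj hl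
      exact ⟨j, l, fun h => hj h.symm, hl.1, hl.2⟩
    apply hL i j l h1 h2 h3
    rw [det3, hi, Matrix.det_fin_three]
    simp
  have key := congrArg (aeval (R := K) (fun p : Fin 3 × Fin 3 => jt K p.1 p.2)) h
  have e1 : ∀ t : Fin 20, aeval (R := K) (fun p : Fin 3 × Fin 3 => jt K p.1 p.2)
      ((Matrix.of fun r c : Fin 3 => (X (r, c) : MvPolynomial (Fin 3 × Fin 3) K)).det ^
      ((t : ℕ) + 1) * (∏ i, lin (L i) (fun c => (X (0, c) : MvPolynomial (Fin 3 × Fin 3) K))) ^
        (2 * ((t : ℕ) + 1)) * ev1 (fun c => X (0, c)) (fun c => X (1, c)) (B t)) =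
      Polynomial.C (cof K ^ ((t : ℕ) + 1) * (∏ i, lin (L i) (fun c => (X (0, c) : R1 K))) ^
        (2 * ((t : ℕ) + 1)) * B t) * Polynomial.X ^ ((t : ℕ) + 1) := by
    intro t
    have a0 : ∀ c : Fin 3, jt K 0 c = Polynomial.C (X (0, c)) := fun c => rfl
    have a1 : ∀ c : Fin 3, jt K 1 c = Polynomial.C (X (1, c)) := fun c => rfl
    have d1 : aeval (R := K) (fun p : Fin 3 × Fin 3 => jt K p.1 p.2)
        (Matrix.of fun r c : Fin 3 => (X (r, c) : MvPolynomial (Fin 3 × Fin 3) K)).det =
        Polynomial.C (cof K) * Polynomial.X := by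
      rw [Matrix.det_fin_three]
      simp only [Matrix.of_apply, map_add, map_sub, map_mul, aeval_X]
      rw [a0, a0, a0, a1, a1, a1]
      have b0 : jt K 2 0 = Polynomial.X := rfl
      have b1 : jt K 2 1 = 0 := rfl
      have b2 : jt K 2 2 = 0 := rfl
      rw [b0, b1, b2, cof, map_sub, map_mul, map_mul]
      ring
    have d2 : ∀ i, aeval (R := K) (fun p : Fin 3 × Fin 3 => jt K p.1 p.2)
        (lin (L i) (fun c => (X (0, c) : MvPolynomial (Fin 3 × Fin 3) K))) =
        Polynomial.C (lin (L i) (fun c => (X (0, c) : R1 K))) := by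
      intro i
      simp only [lin, map_sum, map_mul, AlgHom.commutes, aeval_X]
      refine Finset.sum_congr rfl fun c _ => ?_
      rw [a0]
      rfl
    have d3 : ∀ B : MvPolynomial (Fin 2 × Fin 3) K,
        aeval (R := K) (fun p : Fin 3 × Fin 3 => jt K p.1 p.2)
        (ev1 (fun c => X (0, c)) (fun c => X (1, c)) B) = Polynomial.C B := by
      intro B
      have : (aeval (R := K) (fun p : Fin 3 × Fin 3 => jt K p.1 p.2)).comp
          (ev1 (fun c => X (0, c)) (fun c => X (1, c))) =
          IsScalarTower.toAlgHom K (R1 K) (Polynomial (R1 K)) := by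
        refine MvPolynomial.algHom_ext fun p => ?_
        obtain ⟨r, c⟩ := p
        fin_cases r
        · show aeval (R := K) (fun p : Fin 3 × Fin 3 => jt K p.1 p.2)
            (ev1 (fun c => X (0, c)) (fun c => X (1, c)) (X (0, c))) = Polynomial.C (X (0, c))
          rw [ev1_X0, aeval_X, a0]
        · show aeval (R := K) (fun p : Fin 3 × Fin 3 => jt K p.1 p.2)
            (ev1 (fun c => X (0, c)) (fun c => X (1, c)) (X (1, c))) = Polynomial.C (X (1, c))
          rw [ev1_X1, aeval_X, a1]
      exact DFunLike.congr_fun this B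
    rw [map_mul, map_mul, map_pow, map_pow, d1, map_prod, Finset.prod_congr rfl fun i _ => d2 i, d3,
      map_mul, map_mul, map_pow, map_pow, map_prod]
    ring
  rw [Pof, map_sum, map_zero, Finset.sum_congr rfl fun t _ => e1 t] at key
  have hP : ∏ i, lin (L i) (fun c => (X (0, c) : R1 K)) ≠ 0 :=
    Finset.prod_ne_zero_iff.mpr fun i _ => lin_ne (L i) (hL0 i)
  funext t
  have hc := congrArg (fun p => Polynomial.coeff p ((t : ℕ) + 1)) key
  simp only [Polynomial.finsetSum_coeff, Polynomial.coeff_C_mul_X_pow, Polynomial.coeff_zero] at hc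
  rw [Finset.sum_eq_single t] at hc
  · rw [if_pos rfl] at hc
    have h3 : cof K ^ ((t : ℕ) + 1) * (∏ i, lin (L i) (fun c => (X (0, c) : R1 K))) ^
        (2 * ((t : ℕ) + 1)) ≠ 0 := mul_ne_zero (pow_ne_zero _ cof_ne) (pow_ne_zero _ hP)
    rcases mul_eq_zero.mp hc with h4 | h4
    · exact absurd h4 h3
    · exact h4
  · intro s _ hs
    rw [if_neg]
    intro h5
    apply hs
    exact Fin.ext (by omega)
  · intro h5
    exact absurd (Finset.mem_univ t) h5

end Pool.Agent.DP.H19
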